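import Mathlib

/-!
# A locally perturbed heavy-tailed walk on the square lattice
-/

set_option autoImplicit false

namespace Q294.Perturbed

open Filter Topology

/-- `ζ(3) = ∑_{k ≥ 1} 1 / k³`. -/
noncomputable def zeta3 : ℝ := ∑' k : ℕ, 1 / ((k : ℝ) + 1) ^ 3

/-- The constant `c = 1 / (4 ζ(3))`. -/
noncomputable def c : ℝ := 1 / (4 * zeta3)

/-- The weights of the step law `μ`: `c / k³` at the points `± k e₁` and `± k e₂`, `k ≥ 1`. -/
noncomputable def mu (z : ℤ × ℤ) : ℝ :=
  if z.2 = 0 ∧ z.1 ≠ 0 then c / |(z.1 : ℝ)| ^ 3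
  else if z.1 = 0 ∧ z.2 ≠ 0 then c / |(z.2 : ℝ)| ^ 3
  else 0

theorem summable_zeta3 : Summable fun k : ℕ => 1 / ((k : ℝ) + 1) ^ 3 := by
  have h := (summable_nat_add_iff (f := fun k : ℕ => 1 / (k : ℝ) ^ 3) 1).2
    (Real.summable_one_div_nat_pow.2 (by norm_num))
  simpa using h

theorem zeta3_pos : 0 < zeta3 :=
  summable_zeta3.tsum_pos (fun k => by positivity) 0 (by norm_num)

theorem c_pos : 0 < c := by
  unfold c
  have := zeta3_pos
  positivity

theorem mu_nonneg (z : ℤ × ℤ) : 0 ≤ mu z := by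
  have := c_pos
  unfold mu
  split_ifs <;> positivity

theorem hasSum_line : HasSum (fun k : ℤ => c / |(k : ℝ)| ^ 3) (1 / 2) := by
  have h1 : HasSum (fun k : ℕ => c / |(((k : ℤ) + 1 : ℤ) : ℝ)| ^ 3) (c * zeta3) := by
    have h := summable_zeta3.hasSum.mul_left c
    refine h.congr_fun fun k => ?_
    have : |(((k : ℤ) + 1 : ℤ) : ℝ)| = (k : ℝ) + 1 := by
      push_cast
      exact abs_of_nonneg (by positivity)
    rw [this]; ring
  have h2 : HasSum (fun k : ℕ => c / |((-((k : ℤ) + 1) : ℤ) : ℝ)| ^ 3) (c * zeta3) := by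
    refine h1.congr_fun fun k => ?_
    push_cast
    rw [abs_neg]
  have h3 := HasSum.of_add_one_of_neg_add_one (f := fun k : ℤ => c / |(k : ℝ)| ^ 3) h1 h2
  have h4 : c * zeta3 + c / |((0 : ℤ) : ℝ)| ^ 3 + c * zeta3 = 1 / 2 := by
    have := zeta3_pos.ne'
    unfold c
    field_simp
    norm_num
    ring
  rwa [h4] at h3

theorem hasSum_mu : HasSum mu 1 := by
  have h1 : HasSum (fun z : ℤ × ℤ => if z.2 = 0 then c / |(z.1 : ℝ)| ^ 3 else 0) (1 / 2) := by
    have hi : Function.Injective fun k : ℤ => (k, (0 : ℤ)) := fun a b h => (Prod.ext_iff.1 h).1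
    refine (hi.hasSum_iff fun z hz => ?_).1 ?_
    · rw [if_neg]
      intro h0
      exact hz ⟨z.1, by rw [← h0]⟩
    · simpa [Function.comp_def] using hasSum_line
  have h2 : HasSum (fun z : ℤ × ℤ => if z.1 = 0 then c / |(z.2 : ℝ)| ^ 3 else 0) (1 / 2) := by
    have hi : Function.Injective fun k : ℤ => ((0 : ℤ), k) := fun a b h => (Prod.ext_iff.1 h).2
    refine (hi.hasSum_iff fun z hz => ?_).1 ?_
    · rw [if_neg]
      intro h0
      exact hz ⟨z.2, by rw [← h0]⟩
    · simpa [Function.comp_def] using hasSum_line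
  have h3 := h1.add h2
  rw [show (1 / 2 + 1 / 2 : ℝ) = 1 by norm_num] at h3
  refine h3.congr_fun fun z => ?_
  unfold mu
  by_cases hz1 : z.1 = 0 <;> by_cases hz2 : z.2 = 0 <;> simp [hz1, hz2]

/-- The step law `μ` away from the origin. -/
noncomputable def muLaw : PMF (ℤ × ℤ) :=
  ⟨fun z => ENNReal.ofReal (mu z), by
    have h := ENNReal.ofReal_tsum_of_nonneg mu_nonneg hasSum_mu.summable
    rw [hasSum_mu.tsum_eq, ENNReal.ofReal_one] at h
    rw [h]
    exact ENNReal.summable.hasSum⟩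

/-- The transition law: from the origin a uniform step to one of the four neighbours, from every
other point `y` a step with law `μ`. -/
noncomputable def step (y : ℤ × ℤ) : PMF (ℤ × ℤ) :=
  if y = 0 then PMF.uniformOfFinset {((1 : ℤ), (0 : ℤ)), (-1, 0), (0, 1), (0, -1)} (by simp)
  else muLaw.map fun z => y + z

/-- The law of `S_n` for the Markov chain started at the origin. -/
noncomputable def law : ℕ → PMF (ℤ × ℤ)
  | 0 => PMF.pure 0
  | n + 1 => (law n).bind step

/-- The density of `C W(1)`, `W` a standard planar Brownian motion. -/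
noncomputable def gauss (C : ℝ) (u v : ℝ) : ℝ :=
  (2 * Real.pi * C ^ 2)⁻¹ * Real.exp (-(u ^ 2 + v ^ 2) / (2 * C ^ 2))

/-- The error in the local limit law at time `n`. -/
noncomputable def err (C : ℝ) (n : ℕ) : ENNReal :=
  ⨆ x : ℤ × ℤ, ENNReal.ofReal |n * Real.log n * (law n x).toReal -
    gauss C (x.1 / √(n * Real.log n)) (x.2 / √(n * Real.log n))|

end Q294.Perturbed
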