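import Pool.Agent.Q294.Perturbed.Defs

/-!
# The local limit law fails for the perturbed walk
-/

set_option autoImplicit false

namespace Q294.Perturbed

open Filter Topology
open scoped ENNReal

theorem hasSum_mu_sub (x : ℤ × ℤ) : HasSum (fun y : ℤ × ℤ => mu (x - y)) 1 := by
  have h : HasSum (mu ∘ ⇑(Equiv.subLeft x)) 1 := (Equiv.hasSum_iff (Equiv.subLeft x)).2 hasSum_mu
  have e : (mu ∘ ⇑(Equiv.subLeft x)) = fun y : ℤ × ℤ => mu (x - y) := by
    funext y
    simp only [Function.comp_apply, Equiv.subLeft_apply]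
  rwa [e] at h

theorem muLaw_apply (z : ℤ × ℤ) : muLaw z = ENNReal.ofReal (mu z) := rfl

theorem step_apply_of_ne {y : ℤ × ℤ} (hy : y ≠ 0) (x : ℤ × ℤ) :
    step y x = ENNReal.ofReal (mu (x - y)) := by
  unfold step
  rw [if_neg hy, PMF.map_apply, tsum_eq_single (x - y)]
  · rw [if_pos (by abel), muLaw_apply]
  · intro z hz
    rw [if_neg]
    intro h
    apply hz
    rw [h]; abel

theorem step_zero_e1 : step 0 (1, 0) = 1 / 4 := by
  unfold step
  rw [if_pos rfl, PMF.uniformOfFinset_apply_of_mem _ (by simp)]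
  have : (({((1 : ℤ), (0 : ℤ)), (-1, 0), (0, 1), (0, -1)} : Finset (ℤ × ℤ)).card : ℝ≥0∞) = 4 := by
    have h : ({((1 : ℤ), (0 : ℤ)), (-1, 0), (0, 1), (0, -1)} : Finset (ℤ × ℤ)).card = 4 := by decide
    rw [h]; norm_num
  rw [this, one_div]

/-- The probability `P(S_n = x)`. -/
noncomputable def p (n : ℕ) (x : ℤ × ℤ) : ℝ := (law n x).toReal

theorem p_nonneg (n : ℕ) (x : ℤ × ℤ) : 0 ≤ p n x := ENNReal.toReal_nonneg

theorem p_le_one (n : ℕ) (x : ℤ × ℤ) : p n x ≤ 1 :=
  ENNReal.toReal_le_of_le_ofReal zero_le_one (by rw [ENNReal.ofReal_one]; exact (law n).coe_le_one x)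

theorem summable_mul (n : ℕ) (x : ℤ × ℤ) : Summable fun y => p n y * mu (x - y) := by
  have h1 : Summable fun y : ℤ × ℤ => mu (x - y) := (hasSum_mu_sub x).summable
  exact Summable.of_nonneg_of_le (fun y => mul_nonneg (p_nonneg n y) (mu_nonneg _))
    (fun y => mul_le_of_le_one_left (mu_nonneg _) (p_le_one n y)) h1

/-- The one-step equation at `e₁`. -/
theorem p_succ (n : ℕ) :
    p (n + 1) (1, 0) = p n 0 * (1 / 4 - c) + ∑' y : ℤ × ℤ, p n y * mu ((1, 0) - y) := by
  have h1 : law (n + 1) (1, 0) = ∑' y, law n y * step y (1, 0) := PMF.bind_apply _ _ _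
  have h2 : p (n + 1) (1, 0) = ∑' y, (law n y * step y (1, 0)).toReal := by
    unfold p
    rw [h1, ENNReal.tsum_toReal_eq]
    intro y
    exact ENNReal.mul_ne_top ((law n).apply_ne_top y) ((step y).apply_ne_top _)
  have hmu : mu ((1, 0) - 0) = c := by
    unfold mu
    simp
  have h3 : ∀ y : ℤ × ℤ, (law n y * step y (1, 0)).toReal =
      p n y * mu ((1, 0) - y) + if y = 0 then p n 0 * (1 / 4 - c) else 0 := by
    intro y
    rw [ENNReal.toReal_mul]
    by_cases hy : y = 0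
    · subst hy
      rw [if_pos rfl, hmu, step_zero_e1]
      have : (1 / 4 : ℝ≥0∞).toReal = 1 / 4 := by simp
      rw [this]
      unfold p
      ring
    · rw [if_neg hy, step_apply_of_ne hy, ENNReal.toReal_ofReal (mu_nonneg _), add_zero]
      rfl
  rw [h2, tsum_congr h3, (summable_mul n (1, 0)).tsum_add
    ((hasSum_ite_eq (0 : ℤ × ℤ) (p n 0 * (1 / 4 - c))).summable), tsum_ite_eq, add_comm]

theorem one_lt_zeta3 : 1 < zeta3 := by
  unfold zeta3
  have h := summable_zeta3.sum_le_tsum (Finset.range 2) fun k _ => by positivity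
  refine lt_of_lt_of_le ?_ h
  norm_num [Finset.sum_range_succ]

theorem c_lt : c < 1 / 4 := by
  unfold c
  have := one_lt_zeta3
  exact one_div_lt_one_div_of_lt (by norm_num) (by linarith)

theorem gauss_le {C : ℝ} (u v : ℝ) : gauss C u v ≤ gauss C 0 0 := by
  unfold gauss
  have h0 : 0 ≤ (2 * Real.pi * C ^ 2)⁻¹ := by positivity
  refine mul_le_mul_of_nonneg_left (Real.exp_le_exp.2 ?_) h0
  have h1 : (0 : ℝ) ≤ (u ^ 2 + v ^ 2) / (2 * C ^ 2) := by positivity
  have h2 : -(u ^ 2 + v ^ 2) / (2 * C ^ 2) = -((u ^ 2 + v ^ 2) / (2 * C ^ 2)) := by ring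
  have h3 : -((0 : ℝ) ^ 2 + 0 ^ 2) / (2 * C ^ 2) = 0 := by simp
  rw [h2, h3]
  linarith

theorem gauss_nonneg {C : ℝ} (u v : ℝ) : 0 ≤ gauss C u v := by
  unfold gauss
  positivity

theorem gauss_zero_pos {C : ℝ} (hC : 0 < C) : 0 < gauss C 0 0 := by
  unfold gauss
  positivity

/-- `n log n`. -/
noncomputable def L (n : ℕ) : ℝ := n * Real.log n

theorem tendsto_L : Tendsto L atTop atTop := by
  unfold L
  exact Tendsto.atTop_mul_atTop₀ tendsto_natCast_atTop_atTop
    (Real.tendsto_log_atTop.comp tendsto_natCast_atTop_atTop)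

theorem L_nonneg (n : ℕ) : 0 ≤ L n := by
  unfold L
  exact mul_nonneg (Nat.cast_nonneg n) (Real.log_natCast_nonneg n)

theorem L_mono {m n : ℕ} (h : m ≤ n) : L m ≤ L n := by
  rcases Nat.eq_zero_or_pos m with rfl | hm
  · have h0 : L 0 = 0 := by simp [L]
    rw [h0]; exact L_nonneg n
  · unfold L
    exact mul_le_mul (by exact_mod_cast h) (Real.log_le_log (by exact_mod_cast hm)
      (by exact_mod_cast h)) (Real.log_natCast_nonneg m) (Nat.cast_nonneg n)

theorem tendsto_gauss (C : ℝ) (y : ℤ × ℤ) :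
    Tendsto (fun n : ℕ => gauss C (y.1 / √(L n)) (y.2 / √(L n))) atTop (𝓝 (gauss C 0 0)) := by
  have hs : Tendsto (fun n => √(L n)) atTop atTop := Real.tendsto_sqrt_atTop.comp tendsto_L
  have hu : Tendsto (fun n => (y.1 : ℝ) / √(L n)) atTop (𝓝 0) := hs.const_div_atTop _
  have hv : Tendsto (fun n => (y.2 : ℝ) / √(L n)) atTop (𝓝 0) := hs.const_div_atTop _
  unfold gauss
  have h1 := (((hu.pow 2).add (hv.pow 2)).neg.div_const (2 * C ^ 2)).rexp.const_mul
    (2 * Real.pi * C ^ 2)⁻¹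
  exact h1

/-- The averaged Gaussian weight tends to its value at the origin. -/
theorem tendsto_avg (C : ℝ) : Tendsto (fun n : ℕ => ∑' y : ℤ × ℤ,
    mu ((1, 0) - y) * gauss C (y.1 / √(L n)) (y.2 / √(L n))) atTop (𝓝 (gauss C 0 0)) := by
  have h1 : HasSum (fun y : ℤ × ℤ => mu ((1, 0) - y)) 1 := hasSum_mu_sub (1, 0)
  have h2 : ∑' y : ℤ × ℤ, mu ((1, 0) - y) * gauss C 0 0 = gauss C 0 0 := by
    rw [tsum_mul_right, h1.tsum_eq, one_mul]
  rw [← h2]
  refine tendsto_tsum_of_dominated_convergence (h1.summable.mul_right (gauss C 0 0)) (fun y => ?_)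
    (Eventually.of_forall fun n y => ?_)
  · exact (tendsto_gauss C y).const_mul _
  · rw [Real.norm_of_nonneg (mul_nonneg (mu_nonneg _) (gauss_nonneg _ _))]
    exact mul_le_mul_of_nonneg_left (gauss_le _ _) (mu_nonneg _)

theorem abs_le_of_err {C δ : ℝ} {n : ℕ} (h : err C n < ENNReal.ofReal δ) (x : ℤ × ℤ) :
    |L n * p n x - gauss C (x.1 / √(L n)) (x.2 / √(L n))| ≤ δ := by
  have h1 : ENNReal.ofReal |L n * p n x - gauss C (x.1 / √(L n)) (x.2 / √(L n))| ≤ err C n :=
    le_iSup (fun x : ℤ × ℤ => ENNReal.ofReal |n * Real.log n * (law n x).toReal -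
      gauss C (x.1 / √(n * Real.log n)) (x.2 / √(n * Real.log n))|) x
  exact ((ENNReal.ofReal_lt_ofReal_iff_of_nonneg (abs_nonneg _)).1 (h1.trans_lt h)).le

/-- Two consecutive errors cannot both be small. -/
theorem eventually_err {C : ℝ} (hC : 0 < C) : ∀ᶠ n in atTop,
    ENNReal.ofReal (gauss C 0 0 * (1 / 4 - c) / 8) ≤ err C n ∨
    ENNReal.ofReal (gauss C 0 0 * (1 / 4 - c) / 8) ≤ err C (n + 1) := by
  have hg := gauss_zero_pos hC
  have hc := c_lt
  have hc0 := c_pos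
  set g0 : ℝ := gauss C 0 0 with hg0
  set δ : ℝ := g0 * (1 / 4 - c) / 8 with hδ
  have hδ0 : 0 < δ := by
    have : 0 < 1 / 4 - c := by linarith
    positivity
  filter_upwards [(tendsto_avg C).eventually (lt_mem_nhds (show g0 - δ < gauss C 0 0 by linarith))]
    with n hn
  by_contra hcon
  push Not at hcon
  obtain ⟨h1, h2⟩ := hcon
  have hb := abs_le_of_err h1
  have hb2 := abs_le_of_err h2 (1, 0)
  -- upper bound for `L n * p (n+1) e₁`
  have hup : L n * p (n + 1) (1, 0) ≤ g0 + δ := by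
    have h3 : L (n + 1) * p (n + 1) (1, 0) ≤ g0 + δ := by
      have := (abs_le.1 hb2).2
      have h4 := gauss_le (C := C) (((1 : ℤ) : ℝ) / √(L (n + 1))) (((0 : ℤ) : ℝ) / √(L (n + 1)))
      linarith
    exact (mul_le_mul_of_nonneg_right (L_mono (Nat.le_succ n)) (p_nonneg _ _)).trans h3
  -- lower bound
  have h0 : g0 - δ ≤ L n * p n 0 := by
    have := (abs_le.1 (hb 0)).1
    have h5 : gauss C (((0 : ℤ × ℤ).1 : ℝ) / √(L n)) (((0 : ℤ × ℤ).2 : ℝ) / √(L n)) = g0 := by
      simp [hg0]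
    rw [h5] at this
    linarith
  have h1s : HasSum (fun y : ℤ × ℤ => mu ((1, 0) - y)) 1 := hasSum_mu_sub (1, 0)
  have hsumg : Summable fun y : ℤ × ℤ =>
      mu ((1, 0) - y) * gauss C (y.1 / √(L n)) (y.2 / √(L n)) :=
    Summable.of_nonneg_of_le (fun y => mul_nonneg (mu_nonneg _) (gauss_nonneg _ _))
      (fun y => mul_le_mul_of_nonneg_left (gauss_le _ _) (mu_nonneg _))
      (h1s.summable.mul_right g0)
  have hsum : g0 - 2 * δ ≤ L n * ∑' y : ℤ × ℤ, p n y * mu ((1, 0) - y) := by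
    have h6 : ∑' y : ℤ × ℤ, (mu ((1, 0) - y) * gauss C (y.1 / √(L n)) (y.2 / √(L n)) -
        mu ((1, 0) - y) * δ) ≤ ∑' y : ℤ × ℤ, L n * (p n y * mu ((1, 0) - y)) := by
      refine Summable.tsum_le_tsum (fun y => ?_) (hsumg.sub (h1s.summable.mul_right δ))
        ((summable_mul n (1, 0)).mul_left _)
      have := (abs_le.1 (hb y)).1
      have h7 := mul_le_mul_of_nonneg_left
        (show gauss C (y.1 / √(L n)) (y.2 / √(L n)) - δ ≤ L n * p n y by linarith)
        (mu_nonneg ((1, 0) - y))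
      linarith
    rw [hsumg.tsum_sub (h1s.summable.mul_right δ), tsum_mul_right, h1s.tsum_eq, one_mul,
      tsum_mul_left] at h6
    linarith
  have hrec := p_succ n
  rw [hrec, mul_add] at hup
  have h8 : (g0 - δ) * (1 / 4 - c) ≤ L n * (p n 0 * (1 / 4 - c)) := by
    rw [← mul_assoc]
    exact mul_le_mul_of_nonneg_right h0 (by linarith)
  have h9 : δ * (1 / 4 - c) ≤ δ := by nlinarith
  have h10 : g0 * (1 / 4 - c) = 8 * δ := by rw [hδ]; ring
  nlinarith

theorem not_tendsto {C : ℝ} (hC : 0 < C) : ¬ Tendsto (err C) atTop (𝓝 0) := by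
  intro h
  have hpos : 0 < ENNReal.ofReal (gauss C 0 0 * (1 / 4 - c) / 8) := by
    have := gauss_zero_pos hC
    have := c_lt
    have h1 : 0 < 1 / 4 - c := by linarith
    rw [ENNReal.ofReal_pos]
    positivity
  have h1 := h.eventually (gt_mem_nhds hpos)
  have h2 := (tendsto_add_atTop_nat 1).eventually h1
  obtain ⟨n, hn, hn1, hn2⟩ := ((eventually_err hC).and (h1.and h2)).exists
  rcases hn with h3 | h3
  · exact absurd h3 (not_le.2 hn1)
  · exact absurd h3 (not_le.2 hn2)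

end Q294.Perturbed
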